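import Pool.Agent.Helper55.RT.Spec5
import Pool.Graph.R_seed8.TH115.GD.Ext

/-! THIN (helper55), part `UNP`: the Galois group of `K` acts unipotently on cocycles modulo `p`. -/

set_option autoImplicit false
set_option linter.all false

open Polynomial IsDedekindDomain
open scoped Classical

namespace Pool.Agent.Helper67.Thin.UNP

open Pool.Agent.TH115.GD Pool.Agent.Helper55.RT
open Pool.Agent.Helper55.RG hiding em_inj VanishL VanishExt
open Pool.Agent.Helper55.RL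

theorem fixed_functional {p : ℕ} [Fact p.Prime] {V : Type} [AddCommGroup V] [Module (ZMod p) V]
    [Finite V] [Nontrivial V] {G : Type} [Group G] (r : G →* (V →ₗ[ZMod p] V))
    (hr : ∀ g, ∃ m : ℕ, r (g ^ p ^ m) = 1) :
    ∃ φ : Module.Dual (ZMod p) V, φ ≠ 0 ∧ ∀ g v, φ (r g v) = φ v := by
  let u : G →* (V →ₗ[ZMod p] V)ˣ := r.toHomUnits
  have hu : ∀ g, ((u g : (V →ₗ[ZMod p] V)ˣ) : V →ₗ[ZMod p] V) = r g := fun g => rfl
  let H : Subgroup (V →ₗ[ZMod p] V)ˣ := u.range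
  have hH : IsPGroup p H := by
    rintro ⟨h, g, rfl⟩
    obtain ⟨m, hm⟩ := hr g
    refine ⟨m, ?_⟩
    apply Subtype.ext
    show (u g) ^ p ^ m = 1
    rw [← map_pow]
    apply Units.ext
    rw [hu, hm]
    rfl
  let act : MulAction H (Module.Dual (ZMod p) V) :=
    { smul := fun h φ => φ.comp (((h⁻¹ : H) : (V →ₗ[ZMod p] V)ˣ) : V →ₗ[ZMod p] V)
      one_smul := by
        intro φ
        show φ.comp ((((1 : H)⁻¹ : H) : (V →ₗ[ZMod p] V)ˣ) : V →ₗ[ZMod p] V) = φ
        rw [inv_one]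
        rfl
      mul_smul := by
        intro a b φ
        show φ.comp ((((a * b)⁻¹ : H) : (V →ₗ[ZMod p] V)ˣ) : V →ₗ[ZMod p] V) =
          (φ.comp (((b⁻¹ : H) : (V →ₗ[ZMod p] V)ˣ) : V →ₗ[ZMod p] V)).comp
            (((a⁻¹ : H) : (V →ₗ[ZMod p] V)ˣ) : V →ₗ[ZMod p] V)
        rw [mul_inv_rev]
        rfl }
  haveI : Finite (Module.Dual (ZMod p) V) :=
    Finite.of_injective (fun φ : Module.Dual (ZMod p) V => (φ : V → ZMod p)) DFunLike.coe_injective
  haveI : Module.Finite (ZMod p) V := Module.Finite.of_finite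
  have hcard : p ∣ Nat.card (Module.Dual (ZMod p) V) := by
    rw [Module.natCard_eq_pow_finrank (K := ZMod p), Nat.card_zmod]
    apply dvd_pow_self
    rw [Subspace.dual_finrank_eq]
    exact (Module.finrank_pos).ne'
  obtain ⟨b, hb, hb0⟩ := hH.exists_fixed_point_of_prime_dvd_card_of_fixed_point
    (Module.Dual (ZMod p) V) hcard (a := 0) (by
      intro h
      show (0 : Module.Dual (ZMod p) V).comp _ = 0
      exact LinearMap.zero_comp _)
  refine ⟨b, fun h => hb0 h.symm, fun g v => ?_⟩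
  have h1 := hb ⟨(u g)⁻¹, H.inv_mem ⟨g, rfl⟩⟩
  have h2 : b.comp ((((⟨(u g)⁻¹, H.inv_mem ⟨g, rfl⟩⟩ : H)⁻¹ : H) : (V →ₗ[ZMod p] V)ˣ) :
      V →ₗ[ZMod p] V) = b := h1
  have h3 := LinearMap.congr_fun h2 v
  have h4 : ((((⟨(u g)⁻¹, H.inv_mem ⟨g, rfl⟩⟩ : H)⁻¹ : H) : (V →ₗ[ZMod p] V)ˣ) :
      V →ₗ[ZMod p] V) = r g := by
    show ((((u g)⁻¹)⁻¹ : (V →ₗ[ZMod p] V)ˣ) : V →ₗ[ZMod p] V) = r g
    rw [inv_inv]
    rfl
  rw [LinearMap.comp_apply, h4] at h3
  exact h3

theorem abs_unp {p : ℕ} [Fact p.Prime] {G H : Type} [Group G] [Group H] (res : H → G)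
    (rel : H → H → Prop) (hex : ∀ σ, ∃ σ', rel σ σ') (Q : (H → ZMod p) → Prop)
    (hQ : ∀ χ : H → ZMod p, Q χ → (∀ σ σ', χ (σ * σ') = χ σ + χ σ') →
      ∀ σ σ', rel σ σ' → χ σ' = χ σ) (τ : G) :
    ∀ (n : ℕ) (V : Type) [AddCommGroup V] [Module (ZMod p) V] [Finite V],
      Module.finrank (ZMod p) V = n → ∀ r : G →* (V →ₗ[ZMod p] V),
      (∀ g, ∃ m : ℕ, r (g ^ p ^ m) = 1) → ∀ f : ℕ → H → V,
      (∀ (φ : Module.Dual (ZMod p) V) (i : ℕ), Q (fun σ => φ (f i σ))) →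
      (∀ i σ σ', f i (σ * σ') = f i σ + r (res σ) (f i σ')) →
      (∀ i σ σ', rel σ σ' → f (i + 1) σ = r τ (f i σ') - f i σ) → ∀ σ, f n σ = 0 := by
  intro n
  induction n with
  | zero =>
    intro V _ _ _ hn r hr f hfQ hf hfτ σ
    haveI : Module.Finite (ZMod p) V := Module.Finite.of_finite
    haveI : Subsingleton V := Module.finrank_zero_iff.1 hn
    exact Subsingleton.elim _ _
  | succ n ih =>
    intro V _ _ _ hn r hr f hfQ hf hfτ σ
    haveI : Module.Finite (ZMod p) V := Module.Finite.of_finite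
    haveI : Nontrivial V := Module.nontrivial_of_finrank_pos (R := ZMod p) (by rw [hn]; omega)
    obtain ⟨φ, hφ0, hφ⟩ := fixed_functional r hr
    have hker : ∀ i σ, φ (f (i + 1) σ) = 0 := by
      intro i σ
      obtain ⟨σ', hσ'⟩ := hex σ
      have h1 := hQ (fun σ => φ (f i σ)) (hfQ φ i) (fun a b => by
        show φ (f i (a * b)) = φ (f i a) + φ (f i b)
        rw [hf, map_add, hφ]) σ σ' hσ'
      rw [hfτ i σ σ' hσ', map_sub, hφ, sub_eq_zero]
      exact h1
    let V' := LinearMap.ker φ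
    have hst : ∀ g, ∀ v ∈ V', r g v ∈ V' := by
      intro g v hv
      rw [LinearMap.mem_ker] at hv ⊢
      rw [hφ, hv]
    let r' : G →* (V' →ₗ[ZMod p] V') :=
      { toFun := fun g => (r g).restrict (hst g)
        map_one' := by
          ext v
          rw [LinearMap.restrict_coe_apply, map_one]
          rfl
        map_mul' := fun a b => by
          ext v
          rw [LinearMap.restrict_coe_apply, map_mul]
          rfl }
    have hr' : ∀ g v, ((r' g v : V') : V) = r g v := fun g v => rfl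
    have hn' : Module.finrank (ZMod p) V' = n := by
      have h1 := Module.Dual.finrank_ker_add_one_of_ne_zero hφ0
      rw [hn] at h1
      exact Nat.succ_injective h1
    have key := ih V' hn' r' (fun g => by
      obtain ⟨m, hm⟩ := hr g
      refine ⟨m, ?_⟩
      ext v
      rw [hr', hm]
      rfl) (fun i σ => ⟨f (i + 1) σ, hker i σ⟩) (fun ψ i => by
      obtain ⟨g, hg⟩ := LinearMap.exists_extend ψ
      have h1 := hfQ g (i + 1)
      have h2 : (fun σ => ψ (⟨f (i + 1) σ, hker i σ⟩ : V')) = fun σ => g (f (i + 1) σ) := by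
        funext σ
        rw [← hg]
        rfl
      rw [h2]
      exact h1) (fun i a b => Subtype.ext (by
        rw [Submodule.coe_add, hr']
        exact hf (i + 1) a b)) (fun i a b hab => Subtype.ext (by
        rw [Submodule.coe_sub, hr']
        exact hfτ (i + 1) a b hab)) σ
    exact congrArg Subtype.val key

theorem main (hK : Q_KIN) : Q_UNP := by
  intro p _ k k' K F _ _ _ _ _ _ _ _ _ _ hT hμ s hs hsk d ρ hρ hρu τ f hfc hf hfl hfτ
  haveI := hT.sep
  haveI := hT.fracK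
  have hN : Preserves K F (Sep F) := preserves hT.map
  let rel : (Sep F ≃ₐ[F] Sep F) → (Sep F ≃ₐ[F] Sep F) → Prop :=
    fun σ σ' => ∀ x, τ (σ' x) = σ (τ x)
  have hex : ∀ σ, ∃ σ', rel σ σ' := by
    intro σ
    obtain ⟨σ', h⟩ := exists_conj hN τ σ
    exact ⟨σ', h⟩
  let Q : ((Sep F ≃ₐ[F] Sep F) → ZMod p) → Prop := fun χ => Continuous χ ∧
    (∀ v : HeightOneSpectrum k'[X], s.map (algebraMap k k') ∉ v.asIdeal →
    ∀ (ι : Sep F →ₐ[F] Sep (Comp k'[X] F v)) (σ : Sep F ≃ₐ[F] Sep F), InLoc k' v ι σ → χ σ = 0)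
  have hQ : ∀ χ : (Sep F ≃ₐ[F] Sep F) → ZMod p, Q χ → (∀ σ σ', χ (σ * σ') = χ σ + χ σ') →
      ∀ σ σ', rel σ σ' → χ σ' = χ σ := by
    intro χ hχ hm σ σ' hr
    exact hK p k k' K F hT hμ s hs hsk χ hχ.1 hm hχ.2 τ σ σ' hr
  let r : (Sep F ≃ₐ[K] Sep F) →* ((Fin d → ZMod p) →ₗ[ZMod p] (Fin d → ZMod p)) :=
    { toFun := fun g => Matrix.mulVecLin (ρ g).1
      map_one' := by
        rw [map_one, Units.val_one, Matrix.mulVecLin_one]
        rfl
      map_mul' := fun a b => by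
        rw [map_mul, Units.val_mul, Matrix.mulVecLin_mul]
        rfl }
  refine abs_unp (fun σ : Sep F ≃ₐ[F] Sep F => (σ.restrictScalars K : Sep F ≃ₐ[K] Sep F)) rel hex Q
    hQ τ d (Fin d → ZMod p) (by rw [Module.finrank_fin_fun]) r ?_ f ?_ ?_ ?_
  · intro g
    obtain ⟨m, hm⟩ := hρ g
    refine ⟨m, ?_⟩
    show Matrix.mulVecLin (ρ (g ^ p ^ m)).1 = 1
    rw [hm, Units.val_one, Matrix.mulVecLin_one]
    rfl
  · intro φ i
    refine ⟨?_, ?_⟩
    · have h1 : Continuous (φ : (Fin d → ZMod p) → ZMod p) := continuous_of_discreteTopology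
      exact h1.comp (hfc i)
    · intro v hv ι σ hσ
      show φ (f i σ) = 0
      rw [hfl i v hv ι σ hσ, map_zero]
  · intro i σ σ'
    exact hf i σ σ'
  · intro i σ σ' h
    exact hfτ i σ σ' h

end Pool.Agent.Helper67.Thin.UNP
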